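import Mathlib
import Pool.Agent.U581.LB.Stm2
import Pool.Agent.N48.Ann.NT1

/-!
Project LB, package RS2: `∑_{n ≤ X} (r0 * r0)(n) = (π² / 16) X log X + O(X)`.
-/

set_option autoImplicit false

namespace Pool.Agent.U637.LB

open Real Finset Pool.Agent.U581.LB

/-! ### the count -/

/-- the representations `n = a² + b²`, `a ≥ 1`, `b ≥ 0` -/
def Qz (n : ℕ) : Finset (ℕ × ℕ) :=
  (range (n + 1) ×ˢ range (n + 1)).filter (fun p => 1 ≤ p.1 ∧ p.1 ^ 2 + p.2 ^ 2 = n)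

lemma mem_Qz {n : ℕ} {p : ℕ × ℕ} : p ∈ Qz n ↔ 1 ≤ p.1 ∧ p.1 ^ 2 + p.2 ^ 2 = n := by
  unfold Qz
  rw [mem_filter, mem_product, mem_range, mem_range]
  constructor
  · exact fun h => h.2
  · intro h
    refine ⟨⟨?_, ?_⟩, h⟩
    · nlinarith [h.2]
    · rcases Nat.eq_zero_or_pos p.2 with h0 | h0
      · omega
      · nlinarith [h.2]

/-- all representations -/
def AA (n : ℕ) : Set (ℤ × ℤ) := {p | p.1 ^ 2 + p.2 ^ 2 = (n : ℤ)}

/-- the quadrants -/
def A1 (n : ℕ) : Set (ℤ × ℤ) := {p | p ∈ AA n ∧ 0 < p.1 ∧ 0 ≤ p.2}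
def A2 (n : ℕ) : Set (ℤ × ℤ) := {p | p ∈ AA n ∧ p.1 ≤ 0 ∧ 0 < p.2}
def A3 (n : ℕ) : Set (ℤ × ℤ) := {p | p ∈ AA n ∧ p.1 < 0 ∧ p.2 ≤ 0}
def A4 (n : ℕ) : Set (ℤ × ℤ) := {p | p ∈ AA n ∧ 0 ≤ p.1 ∧ p.2 < 0}

/-- rotation -/
def rot (p : ℤ × ℤ) : ℤ × ℤ := (-p.2, p.1)

lemma rot_inj : Function.Injective rot := by
  rintro ⟨a, b⟩ ⟨c, d⟩ h
  simp only [rot, Prod.mk.injEq, neg_inj] at h
  rw [h.1, h.2]

lemma rot_A1 (n : ℕ) : rot '' A1 n = A2 n := by
  ext ⟨x, y⟩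
  constructor
  · rintro ⟨⟨a, b⟩, ⟨h1, h2, h3⟩, h⟩
    simp only [rot, Prod.mk.injEq] at h
    obtain ⟨rfl, rfl⟩ := h
    refine ⟨?_, ?_, h2⟩
    · change (-b) ^ 2 + a ^ 2 = (n : ℤ)
      change a ^ 2 + b ^ 2 = (n : ℤ) at h1
      rw [← h1]; ring
    · change -b ≤ 0
      change 0 ≤ b at h3
      omega
  · rintro ⟨h1, h2, h3⟩
    change x ^ 2 + y ^ 2 = (n : ℤ) at h1
    change x ≤ 0 at h2
    refine ⟨(y, -x), ⟨?_, h3, ?_⟩, ?_⟩
    · change y ^ 2 + (-x) ^ 2 = (n : ℤ)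
      rw [← h1]; ring
    · change 0 ≤ -x
      omega
    · simp [rot]

lemma rot_A2 (n : ℕ) : rot '' A2 n = A3 n := by
  ext ⟨x, y⟩
  constructor
  · rintro ⟨⟨a, b⟩, ⟨h1, h2, h3⟩, h⟩
    simp only [rot, Prod.mk.injEq] at h
    obtain ⟨rfl, rfl⟩ := h
    refine ⟨?_, ?_, h2⟩
    · change (-b) ^ 2 + a ^ 2 = (n : ℤ)
      change a ^ 2 + b ^ 2 = (n : ℤ) at h1
      rw [← h1]; ring
    · change -b < 0
      change 0 < b at h3
      omega
  · rintro ⟨h1, h2, h3⟩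
    change x ^ 2 + y ^ 2 = (n : ℤ) at h1
    change x < 0 at h2
    refine ⟨(y, -x), ⟨?_, h3, ?_⟩, ?_⟩
    · change y ^ 2 + (-x) ^ 2 = (n : ℤ)
      rw [← h1]; ring
    · change 0 < -x
      omega
    · simp [rot]

lemma rot_A3 (n : ℕ) : rot '' A3 n = A4 n := by
  ext ⟨x, y⟩
  constructor
  · rintro ⟨⟨a, b⟩, ⟨h1, h2, h3⟩, h⟩
    simp only [rot, Prod.mk.injEq] at h
    obtain ⟨rfl, rfl⟩ := h
    refine ⟨?_, ?_, h2⟩
    · change (-b) ^ 2 + a ^ 2 = (n : ℤ)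
      change a ^ 2 + b ^ 2 = (n : ℤ) at h1
      rw [← h1]; ring
    · change 0 ≤ -b
      change b ≤ 0 at h3
      omega
  · rintro ⟨h1, h2, h3⟩
    change x ^ 2 + y ^ 2 = (n : ℤ) at h1
    change 0 ≤ x at h2
    refine ⟨(y, -x), ⟨?_, h3, ?_⟩, ?_⟩
    · change y ^ 2 + (-x) ^ 2 = (n : ℤ)
      rw [← h1]; ring
    · change -x ≤ 0
      omega
    · simp [rot]

lemma A1_eq (n : ℕ) : A1 n = (fun q : ℕ × ℕ => ((q.1 : ℤ), (q.2 : ℤ))) '' (Qz n : Set (ℕ × ℕ)) := by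
  ext ⟨x, y⟩
  constructor
  · rintro ⟨h1, h2, h3⟩
    change x ^ 2 + y ^ 2 = (n : ℤ) at h1
    change 0 < x at h2
    change 0 ≤ y at h3
    refine ⟨(x.toNat, y.toNat), ?_, ?_⟩
    · rw [mem_coe, mem_Qz]
      refine ⟨by change 1 ≤ x.toNat; omega, ?_⟩
      change x.toNat ^ 2 + y.toNat ^ 2 = n
      zify
      rw [Int.toNat_of_nonneg h2.le, Int.toNat_of_nonneg h3, h1]
    · simp only [Prod.mk.injEq]
      exact ⟨Int.toNat_of_nonneg h2.le, Int.toNat_of_nonneg h3⟩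
  · rintro ⟨⟨a, b⟩, h1, h2⟩
    rw [mem_coe, mem_Qz] at h1
    simp only [Prod.mk.injEq] at h2
    obtain ⟨rfl, rfl⟩ := h2
    obtain ⟨h1, h3⟩ := h1
    refine ⟨?_, ?_, ?_⟩
    · change (a : ℤ) ^ 2 + (b : ℤ) ^ 2 = n
      exact_mod_cast h3
    · change (0 : ℤ) < a
      exact_mod_cast h1
    · change (0 : ℤ) ≤ b
      positivity

lemma ncard_A1 (n : ℕ) : (A1 n).ncard = (Qz n).card ∧ (A1 n).Finite := by
  rw [A1_eq]
  constructor
  · rw [Set.ncard_image_of_injective, Set.ncard_coe_finset]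
    rintro ⟨a, b⟩ ⟨c, d⟩ h
    simp only [Prod.mk.injEq, Nat.cast_inj] at h
    rw [h.1, h.2]
  · exact (Finset.finite_toSet _).image _

lemma AA_eq {n : ℕ} (hn : 1 ≤ n) : AA n = A1 n ∪ A2 n ∪ A3 n ∪ A4 n := by
  ext ⟨x, y⟩
  constructor
  · intro h
    have h0 : ¬ (x = 0 ∧ y = 0) := by
      rintro ⟨rfl, rfl⟩
      have h' : (0 : ℤ) ^ 2 + 0 ^ 2 = (n : ℤ) := h
      have : (0 : ℤ) < n := by exact_mod_cast hn
      omega
    by_cases h1 : 0 < x ∧ 0 ≤ y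
    · exact Or.inl (Or.inl (Or.inl ⟨h, h1.1, h1.2⟩))
    by_cases h2 : x ≤ 0 ∧ 0 < y
    · exact Or.inl (Or.inl (Or.inr ⟨h, h2.1, h2.2⟩))
    by_cases h3 : x < 0 ∧ y ≤ 0
    · exact Or.inl (Or.inr ⟨h, h3.1, h3.2⟩)
    · refine Or.inr ⟨h, ?_, ?_⟩
      · change 0 ≤ x
        omega
      · change y < 0
        omega
  · rintro (((h | h) | h) | h)
    · exact h.1
    · exact h.1
    · exact h.1
    · exact h.1

lemma r2_eq {n : ℕ} (hn : 1 ≤ n) : r2 n = 4 * ((Qz n).card : ℝ) := by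
  obtain ⟨h1, f1⟩ := ncard_A1 n
  have h2 : (A2 n).ncard = (Qz n).card ∧ (A2 n).Finite := by
    rw [← rot_A1]
    exact ⟨by rw [Set.ncard_image_of_injective _ rot_inj, h1], f1.image _⟩
  have h3 : (A3 n).ncard = (Qz n).card ∧ (A3 n).Finite := by
    rw [← rot_A2]
    exact ⟨by rw [Set.ncard_image_of_injective _ rot_inj, h2.1], h2.2.image _⟩
  have h4 : (A4 n).ncard = (Qz n).card ∧ (A4 n).Finite := by
    rw [← rot_A3]
    exact ⟨by rw [Set.ncard_image_of_injective _ rot_inj, h3.1], h3.2.image _⟩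
  have d1 : Disjoint (A1 n) (A2 n) := by
    rw [Set.disjoint_left]
    rintro p ⟨-, h, -⟩ ⟨-, h', -⟩
    omega
  have d2 : Disjoint (A1 n ∪ A2 n) (A3 n) := by
    rw [Set.disjoint_left]
    rintro p (⟨-, h, h'⟩ | ⟨-, h, h'⟩) ⟨-, g, g'⟩
    · omega
    · omega
  have d3 : Disjoint (A1 n ∪ A2 n ∪ A3 n) (A4 n) := by
    rw [Set.disjoint_left]
    rintro p ((⟨-, h, h'⟩ | ⟨-, h, h'⟩) | ⟨-, h, h'⟩) ⟨-, g, g'⟩
    · omega
    · omega
    · omega
  have e : (AA n).ncard = 4 * (Qz n).card := by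
    rw [AA_eq hn, Set.ncard_union_eq d3 ((f1.union h2.2).union h3.2) h4.2,
      Set.ncard_union_eq d2 (f1.union h2.2) h3.2, Set.ncard_union_eq d1 f1 h2.2, h1, h2.1, h3.1,
      h4.1]
    ring
  have e2 : r2 n = ((AA n).ncard : ℝ) := by
    unfold r2
    rw [← Nat.card_coe_set_eq]
    rfl
  rw [e2, e]
  push_cast
  ring

lemma r0_eq {n : ℕ} (hn : 1 ≤ n) : r0 n = ((Qz n).card : ℝ) := by
  unfold r0
  rw [r2_eq hn]
  ring

lemma r0_nonneg (n : ℕ) : 0 ≤ r0 n := by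
  unfold r0 r2
  positivity

/-- the summatory function -/
noncomputable def RR (m : ℕ) : ℝ := ∑ n ∈ Icc 1 m, r0 n

lemma RR_succ (m : ℕ) : RR (m + 1) = RR m + r0 (m + 1) := by
  unfold RR
  rw [Finset.sum_Icc_succ_top (by omega)]

lemma RR_zero : RR 0 = 0 := by simp [RR]

lemma RR_nonneg (m : ℕ) : 0 ≤ RR m := Finset.sum_nonneg fun n _ => r0_nonneg n

/-- all pairs -/
def PP (m : ℕ) : Finset (ℕ × ℕ) :=
  (range (m + 1) ×ˢ range (m + 1)).filter (fun p => 1 ≤ p.1 ∧ p.1 ^ 2 + p.2 ^ 2 ≤ m)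

lemma mem_PP {m : ℕ} {p : ℕ × ℕ} : p ∈ PP m ↔ 1 ≤ p.1 ∧ p.1 ^ 2 + p.2 ^ 2 ≤ m := by
  unfold PP
  rw [mem_filter, mem_product, mem_range, mem_range]
  constructor
  · exact fun h => h.2
  · intro h
    refine ⟨⟨?_, ?_⟩, h⟩
    · nlinarith [h.2]
    · rcases Nat.eq_zero_or_pos p.2 with h0 | h0
      · omega
      · nlinarith [h.2]

lemma RR_eq_card (m : ℕ) : RR m = ((PP m).card : ℝ) := by
  have h : (PP m).card = ∑ n ∈ Icc 1 m, (Qz n).card := by
    rw [Finset.card_eq_sum_card_fiberwise (f := fun p : ℕ × ℕ => p.1 ^ 2 + p.2 ^ 2)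
      (t := Icc 1 m)]
    · refine Finset.sum_congr rfl fun n hn => ?_
      congr 1
      ext p
      rw [mem_filter, mem_PP, mem_Qz]
      rw [mem_Icc] at hn
      constructor
      · rintro ⟨⟨h1, h2⟩, h3⟩
        exact ⟨h1, h3⟩
      · rintro ⟨h1, h3⟩
        exact ⟨⟨h1, by omega⟩, h3⟩
    · intro p hp
      rw [mem_coe, mem_PP] at hp
      rw [mem_coe, mem_Icc]
      refine ⟨?_, hp.2⟩
      change 1 ≤ p.1 ^ 2 + p.2 ^ 2
      nlinarith [hp.1]
  rw [h]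
  unfold RR
  push_cast
  refine Finset.sum_congr rfl fun n hn => ?_
  exact r0_eq (mem_Icc.1 hn).1

lemma PP_card (m : ℕ) : (PP m).card = (Pool.Agent.N48.Ann.Qs m).card + Nat.sqrt m := by
  have h1 : PP m = Pool.Agent.N48.Ann.Qs m ∪ (Icc 1 (Nat.sqrt m)).image (fun a => (a, 0)) := by
    ext ⟨a, b⟩
    rw [mem_union, mem_PP, Pool.Agent.N48.Ann.mem_Qs, mem_image]
    constructor
    · rintro ⟨h1, h2⟩
      dsimp only at h1 h2
      rcases Nat.eq_zero_or_pos b with rfl | hb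
      · right
        refine ⟨a, ?_, rfl⟩
        rw [mem_Icc, Nat.le_sqrt']
        exact ⟨h1, by simpa using h2⟩
      · left
        exact ⟨h1, hb, h2⟩
    · rintro (⟨h1, h2, h3⟩ | ⟨c, hc, h⟩)
      · exact ⟨h1, h3⟩
      · simp only [Prod.mk.injEq] at h
        obtain ⟨rfl, rfl⟩ := h
        rw [mem_Icc, Nat.le_sqrt'] at hc
        exact ⟨hc.1, by simpa using hc.2⟩
  rw [h1, Finset.card_union_of_disjoint, Finset.card_image_of_injective]
  · simp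
  · intro a b h
    simpa using h
  · rw [Finset.disjoint_left]
    rintro p hp hp2
    rw [Pool.Agent.N48.Ann.mem_Qs] at hp
    rw [mem_image] at hp2
    obtain ⟨a, -, rfl⟩ := hp2
    simp at hp

lemma RR_bound (m : ℕ) : |RR m - π / 4 * m| ≤ 5 * √(m : ℝ) := by
  have h1 := Pool.Agent.N48.Ann.Qs_asymp m
  rw [RR_eq_card, PP_card]
  have h2 : ((Nat.sqrt m : ℕ) : ℝ) ≤ √(m : ℝ) := Real.nat_sqrt_le_real_sqrt
  have h3 : (0 : ℝ) ≤ (Nat.sqrt m : ℕ) := by positivity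
  push_cast
  rw [abs_le] at *
  constructor <;> linarith [h1.1, h1.2]

/-! ### the Dirichlet series sums -/

lemma sqrt_diff {m : ℕ} (hm : 1 ≤ m) :
    (1 / √(m : ℝ) - 1 / √((m : ℝ) + 1)) * (√(m : ℝ) * √((m : ℝ) + 1) *
      (√(m : ℝ) + √((m : ℝ) + 1))) = 1 := by
  have hm' : (0 : ℝ) < m := by exact_mod_cast hm
  have h1 : 0 < √(m : ℝ) := Real.sqrt_pos.2 hm'
  have h2 : 0 < √((m : ℝ) + 1) := Real.sqrt_pos.2 (by linarith)
  have e1 : √(m : ℝ) ^ 2 = m := Real.sq_sqrt hm'.le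
  have e2 : √((m : ℝ) + 1) ^ 2 = m + 1 := Real.sq_sqrt (by linarith)
  field_simp
  nlinarith

lemma DD (X : ℕ) : ∑ a ∈ Icc 1 X, r0 a / a =
    RR X / (X + 1) + ∑ m ∈ Icc 1 X, RR m / (m * (m + 1)) := by
  induction X with
  | zero => simp [RR_zero]
  | succ X ih =>
    rw [Finset.sum_Icc_succ_top (by omega), Finset.sum_Icc_succ_top (by omega), ih, RR_succ]
    push_cast
    have h1 : ((X : ℝ) + 1) ≠ 0 := by positivity
    have h2 : ((X : ℝ) + 1 + 1) ≠ 0 := by positivity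
    field_simp
    ring

lemma BB (X : ℕ) : ∑ a ∈ Icc 1 X, r0 a / √(a : ℝ) =
    RR X / √((X : ℝ) + 1) + ∑ m ∈ Icc 1 X, RR m * (1 / √(m : ℝ) - 1 / √((m : ℝ) + 1)) := by
  induction X with
  | zero => simp [RR_zero]
  | succ X ih =>
    rw [Finset.sum_Icc_succ_top (by omega), Finset.sum_Icc_succ_top (by omega), ih, RR_succ]
    push_cast
    ring

lemma sum_telescope (X : ℕ) : ∑ m ∈ Icc 1 X, 1 / (√(m : ℝ) * ((m : ℝ) + 1)) ≤
    2 - 2 / √((X : ℝ) + 1) := by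
  induction X with
  | zero => simp
  | succ X ih =>
    rw [Finset.sum_Icc_succ_top (by omega)]
    have h := sqrt_diff (m := X + 1) (by omega)
    push_cast at h ⊢
    set a := √((X : ℝ) + 1) with ha
    set b := √((X : ℝ) + 1 + 1) with hb
    have ha0 : 0 < a := Real.sqrt_pos.2 (by positivity)
    have hb0 : 0 < b := Real.sqrt_pos.2 (by positivity)
    have hab : a ≤ b := Real.sqrt_le_sqrt (by linarith)
    have e2 : b ^ 2 = X + 1 + 1 := Real.sq_sqrt (by positivity)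
    have key : 1 / (a * ((X : ℝ) + 1 + 1)) ≤ 2 * (1 / a - 1 / b) := by
      rw [← e2, div_le_iff₀ (by positivity)]
      have h3 : 0 ≤ 1 / a - 1 / b := by
        rw [sub_nonneg]
        exact one_div_le_one_div_of_le ha0 hab
      have h4 : a * b * (a + b) ≤ 2 * (a * b ^ 2) := by nlinarith [mul_pos ha0 hb0]
      calc (1 : ℝ) = (1 / a - 1 / b) * (a * b * (a + b)) := h.symm
        _ ≤ (1 / a - 1 / b) * (2 * (a * b ^ 2)) := mul_le_mul_of_nonneg_left h4 h3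
        _ = 2 * (1 / a - 1 / b) * (a * b ^ 2) := by ring
    have e3 : 2 / a = 2 * (1 / a) := by ring
    have e4 : 2 / b = 2 * (1 / b) := by ring
    rw [e3] at ih
    rw [e4]
    linarith

lemma sum_inv_sqrt (X : ℕ) : ∑ m ∈ Icc 1 X, 1 / √(m : ℝ) ≤ 2 * √(X : ℝ) := by
  induction X with
  | zero => simp
  | succ X ih =>
    rw [Finset.sum_Icc_succ_top (by omega)]
    push_cast
    set a := √(X : ℝ) with ha
    set b := √((X : ℝ) + 1) with hb
    have ha0 : 0 ≤ a := Real.sqrt_nonneg _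
    have hb0 : 0 < b := Real.sqrt_pos.2 (by positivity)
    have hab : a ≤ b := Real.sqrt_le_sqrt (by linarith)
    have e1 : a ^ 2 = X := Real.sq_sqrt (by positivity)
    have e2 : b ^ 2 = X + 1 := Real.sq_sqrt (by positivity)
    have key : 1 / b ≤ 2 * (b - a) := by
      rw [div_le_iff₀ hb0]
      nlinarith
    linarith

lemma RR_le (m : ℕ) : RR m ≤ 6 * m := by
  have h1 := (abs_le.1 (RR_bound m)).2
  have h2 : √(m : ℝ) ≤ m := by
    rcases Nat.eq_zero_or_pos m with rfl | hm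
    · simp
    · rw [Real.sqrt_le_left (by positivity)]
      have : (1 : ℝ) ≤ m := by exact_mod_cast hm
      nlinarith
  have h3 := Real.pi_lt_four
  have h4 : (0 : ℝ) ≤ m := by positivity
  nlinarith

lemma BB_le (X : ℕ) : ∑ a ∈ Icc 1 X, r0 a / √(a : ℝ) ≤ 12 * √(X : ℝ) := by
  rw [BB]
  have h1 : RR X / √((X : ℝ) + 1) ≤ 6 * √(X : ℝ) := by
    rw [div_le_iff₀ (Real.sqrt_pos.2 (by positivity))]
    have h2 : √(X : ℝ) * √(X : ℝ) = X := Real.mul_self_sqrt (by positivity)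
    have h3 : √(X : ℝ) ≤ √((X : ℝ) + 1) := Real.sqrt_le_sqrt (by linarith)
    have h4 : 0 ≤ √(X : ℝ) := Real.sqrt_nonneg _
    have h5 := RR_le X
    nlinarith
  have h2 : ∑ m ∈ Icc 1 X, RR m * (1 / √(m : ℝ) - 1 / √((m : ℝ) + 1)) ≤
      ∑ m ∈ Icc 1 X, 3 * (1 / √(m : ℝ)) := by
    refine Finset.sum_le_sum fun m hm => ?_
    have hm1 := (mem_Icc.1 hm).1
    have hm' : (0 : ℝ) < m := by exact_mod_cast hm1
    have h := sqrt_diff hm1
    set a := √(m : ℝ) with ha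
    set b := √((m : ℝ) + 1) with hb
    have ha0 : 0 < a := Real.sqrt_pos.2 hm'
    have hb0 : 0 < b := Real.sqrt_pos.2 (by linarith)
    have hab : a ≤ b := Real.sqrt_le_sqrt (by linarith)
    have e1 : a ^ 2 = m := Real.sq_sqrt hm'.le
    have h3 : 0 ≤ 1 / a - 1 / b := by
      rw [sub_nonneg]
      exact one_div_le_one_div_of_le ha0 hab
    have h4 : RR m ≤ 6 * a ^ 2 := by rw [e1]; exact RR_le m
    have h5 : 2 * (a ^ 2 * a) ≤ a * b * (a + b) := by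
      have : a ^ 2 ≤ a * b := by nlinarith
      nlinarith [mul_pos ha0 hb0]
    have h6 : (1 / a - 1 / b) * (2 * (a ^ 2 * a)) ≤ 1 := by
      calc (1 / a - 1 / b) * (2 * (a ^ 2 * a)) ≤ (1 / a - 1 / b) * (a * b * (a + b)) :=
            mul_le_mul_of_nonneg_left h5 h3
        _ = 1 := h
    calc RR m * (1 / a - 1 / b) ≤ (6 * a ^ 2) * (1 / a - 1 / b) :=
          mul_le_mul_of_nonneg_right h4 h3
      _ = 3 * (((1 / a - 1 / b) * (2 * (a ^ 2 * a))) / a) := by field_simp; ring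
      _ ≤ 3 * (1 / a) := by
          gcongr
  have h3 := sum_inv_sqrt X
  rw [← Finset.mul_sum] at h2
  linarith

lemma harm_bound {X : ℕ} (hX : 1 ≤ X) :
    |∑ m ∈ Icc 1 X, 1 / ((m : ℝ) + 1) - log X| ≤ 1 := by
  have h1 : ∀ Y : ℕ, ∑ m ∈ Icc 1 Y, 1 / ((m : ℝ) + 1) = (harmonic (Y + 1) : ℝ) - 1 := by
    intro Y
    induction Y with
    | zero => simp [harmonic]
    | succ Y ih =>
      rw [Finset.sum_Icc_succ_top (by omega), ih, harmonic_succ (Y + 1)]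
      push_cast
      rw [one_div]
      ring
  rw [h1]
  have h2 := log_add_one_le_harmonic (X + 1)
  have h3 := harmonic_le_one_add_log (X + 1)
  have hX' : (1 : ℝ) ≤ X := by exact_mod_cast hX
  have h4 : log X ≤ log ((X + 1 + 1 : ℕ) : ℝ) := by
    apply Real.log_le_log (by linarith)
    push_cast
    linarith
  have h5 : log ((X + 1 : ℕ) : ℝ) ≤ log X + 1 := by
    have e : ((X + 1 : ℕ) : ℝ) ≤ X * 2 := by push_cast; linarith
    calc log ((X + 1 : ℕ) : ℝ) ≤ log (X * 2) := Real.log_le_log (by positivity) e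
      _ = log X + log 2 := Real.log_mul (by positivity) (by norm_num)
      _ ≤ log X + 1 := by linarith [Real.log_two_lt_d9]
  rw [abs_le]
  constructor
  · linarith
  · linarith

lemma DD_bound {X : ℕ} (hX : 1 ≤ X) : |∑ a ∈ Icc 1 X, r0 a / a - π / 4 * log X| ≤ 17 := by
  rw [DD]
  have hX' : (1 : ℝ) ≤ X := by exact_mod_cast hX
  have h1 : 0 ≤ RR X / (X + 1) ∧ RR X / (X + 1) ≤ 6 := by
    constructor
    · exact div_nonneg (RR_nonneg X) (by positivity)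
    · rw [div_le_iff₀ (by positivity)]
      have := RR_le X
      linarith
  have h2 : |∑ m ∈ Icc 1 X, RR m / (m * (m + 1)) - π / 4 * ∑ m ∈ Icc 1 X, 1 / ((m : ℝ) + 1)| ≤
      10 := by
    rw [Finset.mul_sum, ← Finset.sum_sub_distrib]
    calc |∑ m ∈ Icc 1 X, (RR m / (m * (m + 1)) - π / 4 * (1 / ((m : ℝ) + 1)))| ≤
        ∑ m ∈ Icc 1 X, |RR m / (m * (m + 1)) - π / 4 * (1 / ((m : ℝ) + 1))| :=
          Finset.abs_sum_le_sum_abs _ _
      _ ≤ ∑ m ∈ Icc 1 X, 5 * (1 / (√(m : ℝ) * ((m : ℝ) + 1))) := by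
          refine Finset.sum_le_sum fun m hm => ?_
          have hm' : (0 : ℝ) < m := by exact_mod_cast (mem_Icc.1 hm).1
          have e : RR m / (m * (m + 1)) - π / 4 * (1 / ((m : ℝ) + 1)) =
              (RR m - π / 4 * m) * (1 / (m * (m + 1))) := by
            field_simp
          rw [e, abs_mul, abs_of_nonneg (a := 1 / ((m : ℝ) * (m + 1))) (by positivity)]
          have e2 : √(m : ℝ) * √(m : ℝ) = m := Real.mul_self_sqrt hm'.le
          have ha0 : 0 < √(m : ℝ) := Real.sqrt_pos.2 hm'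
          calc |RR m - π / 4 * m| * (1 / (m * (m + 1))) ≤ 5 * √(m : ℝ) * (1 / (m * (m + 1))) :=
                mul_le_mul_of_nonneg_right (RR_bound m) (by positivity)
            _ = 5 * (1 / (√(m : ℝ) * ((m : ℝ) + 1))) := by
                nth_rewrite 2 [← e2]
                field_simp
      _ ≤ 10 := by
          rw [← Finset.mul_sum]
          have h3 := sum_telescope X
          have h4 : 0 ≤ 2 / √((X : ℝ) + 1) := by positivity
          linarith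
  have h3 := harm_bound hX
  have h4 : |π / 4 * ∑ m ∈ Icc 1 X, 1 / ((m : ℝ) + 1) - π / 4 * log X| ≤ 1 := by
    rw [← mul_sub, abs_mul, abs_of_nonneg (by positivity : (0 : ℝ) ≤ π / 4)]
    have h5 := Real.pi_lt_four
    have h6 := Real.pi_pos
    nlinarith [abs_nonneg (∑ m ∈ Icc 1 X, 1 / ((m : ℝ) + 1) - log X)]
  rw [abs_le] at *
  constructor
  · linarith [h1.1, h1.2, h2.1, h2.2, h4.1, h4.2]
  · linarith [h1.1, h1.2, h2.1, h2.2, h4.1, h4.2]

/-! ### the convolution -/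

/-- `r0` as an arithmetic function -/
noncomputable def rA : ArithmeticFunction ℝ := ⟨fun n => if n = 0 then 0 else r0 n, by simp⟩

lemma rA_apply {n : ℕ} (hn : n ≠ 0) : rA n = r0 n := by
  change (if n = 0 then 0 else r0 n) = r0 n
  rw [if_neg hn]

lemma conv (X : ℕ) : ∑ n ∈ Icc 1 X, ∑ y ∈ n.divisorsAntidiagonal, r0 y.1 * r0 y.2 =
    ∑ a ∈ Icc 1 X, r0 a * RR (X / a) := by
  have hI : ∀ Y : ℕ, Finset.Ioc 0 Y = Icc 1 Y := by
    intro Y
    ext k
    simp only [mem_Ioc, mem_Icc]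
    omega
  have h := ArithmeticFunction.sum_Ioc_mul_eq_sum_sum rA rA X
  rw [hI] at h
  rw [Finset.sum_congr rfl (g := fun n => (rA * rA) n), h]
  · refine Finset.sum_congr rfl fun a ha => ?_
    have ha1 := (mem_Icc.1 ha).1
    rw [rA_apply (by omega), hI]
    congr 1
    unfold RR
    exact Finset.sum_congr rfl fun m hm => rA_apply (by have := (mem_Icc.1 hm).1; omega)
  · intro n hn
    rw [ArithmeticFunction.mul_apply]
    refine Finset.sum_congr rfl fun y hy => ?_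
    have h1 := Nat.mem_divisorsAntidiagonal.1 hy
    have h2 : y.1 ≠ 0 := by
      rintro h0
      rw [h0, zero_mul] at h1
      exact h1.2 h1.1.symm
    have h3 : y.2 ≠ 0 := by
      rintro h0
      rw [h0, mul_zero] at h1
      exact h1.2 h1.1.symm
    rw [rA_apply h2, rA_apply h3]

lemma RR_div {X a : ℕ} (ha : 1 ≤ a) (haX : a ≤ X) :
    |RR (X / a) - π / 4 * (X / a)| ≤ 6 * (√(X : ℝ) / √(a : ℝ)) := by
  have ha' : (0 : ℝ) < a := by exact_mod_cast ha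
  have h1 := RR_bound (X / a)
  have h2 : ((X / a : ℕ) : ℝ) ≤ X / a := Nat.cast_div_le
  have h3 : (X : ℝ) / a - 1 ≤ ((X / a : ℕ) : ℝ) := by
    have h4 : X < a * (X / a + 1) := by
      have := Nat.lt_mul_div_succ X (by omega : 0 < a)
      simpa using this
    have h5 : (X : ℝ) < a * (((X / a : ℕ) : ℝ) + 1) := by exact_mod_cast h4
    rw [sub_le_iff_le_add, div_le_iff₀ ha']
    linarith
  have h4 : √(((X / a : ℕ) : ℝ)) ≤ √(X : ℝ) / √(a : ℝ) := by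
    rw [← Real.sqrt_div (by positivity)]
    exact Real.sqrt_le_sqrt h2
  have h5 : 1 ≤ √(X : ℝ) / √(a : ℝ) := by
    rw [← Real.sqrt_div (by positivity), Real.one_le_sqrt, one_le_div ha']
    exact_mod_cast haX
  have h6 : |π / 4 * ((X / a : ℕ) : ℝ) - π / 4 * (X / a)| ≤ 1 := by
    have e1 := Real.pi_pos
    have e2 := Real.pi_lt_four
    rw [abs_le]
    constructor
    · nlinarith
    · nlinarith
  rw [abs_le] at *
  constructor
  · linarith [h1.1, h1.2, h6.1, h6.2]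
  · linarith [h1.1, h1.2, h6.1, h6.2]

theorem t_RS2 : S_RS2 := by
  refine ⟨89, fun X hX => ?_⟩
  have hX' : (1 : ℝ) ≤ X := by exact_mod_cast hX
  rw [conv]
  have h1 : |∑ a ∈ Icc 1 X, r0 a * RR (X / a) - π / 4 * X * ∑ a ∈ Icc 1 X, r0 a / a| ≤
      72 * X := by
    rw [Finset.mul_sum, ← Finset.sum_sub_distrib]
    calc |∑ a ∈ Icc 1 X, (r0 a * RR (X / a) - π / 4 * X * (r0 a / a))| ≤
        ∑ a ∈ Icc 1 X, |r0 a * RR (X / a) - π / 4 * X * (r0 a / a)| :=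
          Finset.abs_sum_le_sum_abs _ _
      _ ≤ ∑ a ∈ Icc 1 X, 6 * √(X : ℝ) * (r0 a / √(a : ℝ)) := by
          refine Finset.sum_le_sum fun a ha => ?_
          obtain ⟨ha1, ha2⟩ := mem_Icc.1 ha
          have e : r0 a * RR (X / a) - π / 4 * X * (r0 a / a) =
              r0 a * (RR (X / a) - π / 4 * (X / a)) := by ring
          rw [e, abs_mul, abs_of_nonneg (r0_nonneg a)]
          calc r0 a * |RR (X / a) - π / 4 * (X / a)| ≤ r0 a * (6 * (√(X : ℝ) / √(a : ℝ))) :=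
                mul_le_mul_of_nonneg_left (RR_div ha1 ha2) (r0_nonneg a)
            _ = 6 * √(X : ℝ) * (r0 a / √(a : ℝ)) := by ring
      _ ≤ 72 * X := by
          rw [← Finset.mul_sum]
          have h2 := BB_le X
          have h3 : √(X : ℝ) * √(X : ℝ) = X := Real.mul_self_sqrt (by positivity)
          have h4 : 0 ≤ √(X : ℝ) := Real.sqrt_nonneg _
          calc 6 * √(X : ℝ) * ∑ a ∈ Icc 1 X, r0 a / √(a : ℝ) ≤
              6 * √(X : ℝ) * (12 * √(X : ℝ)) := mul_le_mul_of_nonneg_left h2 (by positivity)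
            _ = 72 * (√(X : ℝ) * √(X : ℝ)) := by ring
            _ = 72 * X := by rw [h3]
  have h2 := DD_bound hX
  have h3 : |π / 4 * X * (∑ a ∈ Icc 1 X, r0 a / a) - π ^ 2 / 16 * (X * log X)| ≤ 17 * (X : ℝ) := by
    have e : π / 4 * X * (∑ a ∈ Icc 1 X, r0 a / a) - π ^ 2 / 16 * (X * log X) =
        π / 4 * X * (∑ a ∈ Icc 1 X, r0 a / a - π / 4 * log X) := by ring
    rw [e, abs_mul, abs_of_nonneg (by positivity : (0 : ℝ) ≤ π / 4 * X)]
    have e1 := Real.pi_pos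
    have e2 := Real.pi_lt_four
    have e3 : π / 4 * X ≤ X := by nlinarith
    calc π / 4 * X * |∑ a ∈ Icc 1 X, r0 a / a - π / 4 * log X| ≤ X * 17 :=
          mul_le_mul e3 h2 (abs_nonneg _) (by positivity)
      _ = 17 * X := by ring
  rw [abs_le] at *
  constructor
  · linarith [h1.1, h1.2, h3.1, h3.2]
  · linarith [h1.1, h1.2, h3.1, h3.2]

end Pool.Agent.U637.LB
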